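import Mathlib
import Pool.Agent.H18.PB.Mk2
import Pool.Agent.H18.PB.Inst

set_option autoImplicit false

/-!
# MP_b4eea7_an: lower critical exponents arbitrarily close to 6/5 in one space dimension

The definitions (`InE`, `form`, `Elliptic`, `IsResolvent`, `LpBounded`, `pMinus`) are those of the
library module `Pool.Graph.R_seed8.W787.PEdef`, where `L2`, `Plane` are `L²(ℝ²)` and `ℝ²`, and for
`z : Plane` the number `z 0` is the space variable `x` and `z 1` the time variable `t`.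

The adjoint equation `w - ∂_t w - ∂_x (b ∂_x w) = f` is given a solution which is homogeneous of
degree `-δ`, `δ < 1/2` arbitrary, for the parabolic scaling, near the origin. Then
`(1 + 𝓗)⁻¹` cannot be bounded on `L^p` for `p < 3/(3-δ)`.
-/

namespace Pool.Agent.Results.MP_b4eea7_an.SharpRange

open Pool.Agent.W787.PE
open Pool.Agent.H18.PB

theorem exists_coefficient (p : ℝ) (hp : 1 ≤ p) (hp' : p < 6/5) : ∃ a : Plane → ℂ, Elliptic a ∧
    (∀ (l : ℝ) (z z' : Plane), 0 < l → z' 0 = l * z 0 → z' 1 = l^2 * z 1 → a z' = a z) ∧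
    (∀ lam : ℝ, 0 < lam → ∀ f : L2, ∃! u : L2, IsResolvent a lam f u) ∧
    LpBounded a 2 ∧ (∀ q : ℝ, 1 ≤ q → q ≤ p → ¬ LpBounded a q) ∧ p < pMinus a := by
  have hp0 : 0 < p := by linarith
  have h6 : 0 < 6/p - 5 := by rw [sub_pos, lt_div_iff₀ hp0]; linarith
  set κ : ℝ := min (1/8) ((6/p-5)/2) with hκdef
  have hκ : 0 < κ := lt_min (by norm_num) (by linarith)
  have hκ' : κ ≤ 1/8 := min_le_left _ _
  have hκ2 : κ ≤ (6/p-5)/2 := min_le_right _ _
  obtain ⟨P, hP⟩ := hard hκ hκ'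
  obtain ⟨M, hM⟩ := easy hκ hκ'
  obtain ⟨D, hD⟩ := mkSol P M (by positivity) (by linarith) hP hM
  have hδ : 0 < 1-2*((1+κ)/4) := by linarith
  have hδ' : 1-2*((1+κ)/4) < 1/2 := by linarith
  have hlt : p < 3/(3-(1-2*((1+κ)/4))) := by
    rw [lt_div_iff₀ (by linarith)]
    have : κ < 6/p-5 := by linarith
    have h : p*κ < 6 - 5*p := by
      calc p*κ < p*(6/p-5) := mul_lt_mul_of_pos_left this hp0
        _ = 6 - 5*p := by field_simp
    linarith
  refine ⟨D.bb, D.bb_elliptic, ?_, fun lam hl f => resolvent_exists D.bb D.bb_elliptic lam hl f,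
    lpBounded_two D.bb D.bb_elliptic,
    fun q h1 h2 => D.not_bounded hδ hδ' q h1 (lt_of_le_of_lt h2 hlt),
    lt_of_lt_of_le hlt (D.pMinus_ge hδ hδ')⟩
  intro l z z' hl h0 h1
  simp only [Sol.bb, Sol.co']
  rw [h0, h1, hD l (z 0) (z 1) hl]

/-- **In one space dimension the known bound `p_-(𝓗) < 6/5` cannot be improved.**

(1) For every `p` with `1 ≤ p < 6/5` there is a bounded measurable `a : ℝ² → ℂ` with
`Re a ≥ ν > 0`, invariant under `(x, t) ↦ (l x, l² t)`, `l > 0`, whose resolvents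
`(1 + λ² 𝓗)⁻¹` (which exist and are unique on `L²`, and are `L²` bounded) are not `L^q` bounded for
any `q ∈ [1, p]`, and `p_-(𝓗) > p`.

(2) Hence every `b` with `p_-(𝓗) ≤ b` for all such `a` is at least `6/5`.

(3) In particular it is not true that `p_-(𝓗) = 1` for all such `a`. -/
theorem result :
    (∀ p : ℝ, 1 ≤ p → p < 6/5 → ∃ a : Plane → ℂ, Elliptic a ∧
      (∀ (l : ℝ) (z z' : Plane), 0 < l → z' 0 = l * z 0 → z' 1 = l^2 * z 1 → a z' = a z) ∧
      (∀ lam : ℝ, 0 < lam → ∀ f : L2, ∃! u : L2, IsResolvent a lam f u) ∧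
      LpBounded a 2 ∧ (∀ q : ℝ, 1 ≤ q → q ≤ p → ¬ LpBounded a q) ∧ p < pMinus a) ∧
    (∀ b : ℝ, (∀ a : Plane → ℂ, Elliptic a → pMinus a ≤ b) → 6/5 ≤ b) ∧
    ¬ (∀ a : Plane → ℂ, Elliptic a → pMinus a = 1) := by
  refine ⟨exists_coefficient, ?_, ?_⟩
  · intro b hb
    by_contra hcon
    rw [not_le] at hcon
    obtain ⟨a, ha, -, -, -, -, h⟩ := exists_coefficient (max 1 b) (le_max_left _ _)
      (max_lt (by norm_num) hcon)
    exact absurd (hb a ha) (not_le.mpr (lt_of_le_of_lt (le_max_right _ _) h))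
  · intro h
    obtain ⟨a, ha, -, -, -, -, h1⟩ := exists_coefficient 1 le_rfl (by norm_num)
    rw [h a ha] at h1
    exact lt_irrefl _ h1

end Pool.Agent.Results.MP_b4eea7_an.SharpRange
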